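import Pool.Agent.SPV.StmtsE

/-!
Row IND of squad SPV.
-/

set_option autoImplicit false

namespace Pool.Agent.SPV.H14

open Finset Pool.Agent.SPV

/-- integer vectors which are independent modulo `p` are independent over `ℂ` -/
theorem indep_of_mod {p m : ℕ} [Fact p.Prime] {ι : Type} [Fintype ι] [DecidableEq ι] (N : Fin m → ι → ℤ)
    (h : LinearIndependent (ZMod p) fun (l : Fin m) (i : ι) => (N l i : ZMod p)) :
    LinearIndependent ℂ fun (l : Fin m) (i : ι) => (N l i : ℂ) := by
  classical
  have hinj : LinearMap.ker (Fintype.linearCombination (ZMod p) (fun (l : Fin m) (i : ι) => (N l i : ZMod p))) = ⊥ := by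
    rw [LinearMap.ker_eq_bot]
    exact linearIndependent_iff_injective_fintypeLinearCombination.1 h
  obtain ⟨ψ, hψ⟩ := LinearMap.exists_leftInverse_of_injective _ hinj
  have h1 : ∀ l j, ∑ i, (N l i : ZMod p) * ψ (Pi.single i 1) j = if j = l then 1 else 0 := by
    intro l j
    have h2 := congrArg (fun φ => φ (Pi.single l 1) j) hψ
    simp only [LinearMap.comp_apply, LinearMap.id_apply] at h2
    have h3 : Fintype.linearCombination (ZMod p) (fun (l : Fin m) (i : ι) => (N l i : ZMod p)) (Pi.single l 1) =
        fun i => (N l i : ZMod p) := by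
      rw [Fintype.linearCombination_apply_single, one_smul]
    rw [h3] at h2
    have h4 : (fun i => (N l i : ZMod p)) = ∑ i, (N l i : ZMod p) • (Pi.single i 1 : ι → ZMod p) := by
      ext i
      simp [Finset.sum_apply, Pi.single_apply]
    rw [h4, map_sum, Finset.sum_apply] at h2
    simp only [map_smul, Pi.smul_apply, smul_eq_mul] at h2
    rw [h2, Pi.single_apply]
  let R : Matrix ι (Fin m) ℤ := Matrix.of fun i j => ((ψ (Pi.single i 1) j).val : ℤ)
  let M : Matrix (Fin m) ι ℤ := Matrix.of N
  have h5 : (M * R).map (Int.cast : ℤ → ZMod p) = 1 := by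
    ext l j
    simp only [Matrix.map_apply, Matrix.mul_apply, Matrix.one_apply, M, R, Matrix.of_apply]
    push_cast
    simp only [ZMod.natCast_val, ZMod.cast_id', id_eq]
    rw [h1 l j]
    simp [eq_comm]
  have h6 : (M * R).det ≠ 0 := by
    intro h0
    have h7 : ((M * R).map (Int.cast : ℤ → ZMod p)).det = 0 := by
      have := (Int.castRingHom (ZMod p)).map_det (M * R)
      rw [h0, map_zero] at this
      exact this.symm
    rw [h5, Matrix.det_one] at h7
    exact one_ne_zero h7
  have h8 : ((M * R).map (Int.cast : ℤ → ℂ)).det ≠ 0 := by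
    have := (Int.castRingHom ℂ).map_det (M * R)
    intro h0
    apply h6
    have h9 : (((M * R).det : ℤ) : ℂ) = 0 := by
      have e : (Int.castRingHom ℂ) (M * R).det = ((M * R).map (Int.cast : ℤ → ℂ)).det := this
      rw [h0] at e
      exact e
    exact_mod_cast h9
  rw [Fintype.linearIndependent_iff]
  intro g hg
  have h10 : Matrix.vecMul g (M.map (Int.cast : ℤ → ℂ)) = 0 := by
    ext i
    have := congrFun hg i
    simp only [Finset.sum_apply, Pi.smul_apply, smul_eq_mul, Pi.zero_apply] at this
    simp only [Matrix.vecMul, dotProduct, Matrix.map_apply, M, Matrix.of_apply, Pi.zero_apply]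
    exact this
  have h11 : Matrix.vecMul g ((M * R).map (Int.cast : ℤ → ℂ)) = 0 := by
    have e : (M * R).map (Int.cast : ℤ → ℂ) = M.map (Int.cast : ℤ → ℂ) * R.map (Int.cast : ℤ → ℂ) :=
      Matrix.map_mul (f := Int.castRingHom ℂ)
    rw [e, ← Matrix.vecMul_vecMul, h10, Matrix.zero_vecMul]
  have h12 := Matrix.eq_zero_of_vecMul_eq_zero h8 h11
  exact fun l => congrFun h12 l

theorem ind : IndStmt := by
  classical
  intro p t _ A β γ n hβ hs
  obtain ⟨κ, a, ha, hspan, hlin⟩ := exists_linearIndependent' (ZMod p)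
    (fun (j : Fin t) (i : A) => (n i j : ZMod p))
  have : Finite κ := Finite.of_injective a ha
  have := Fintype.ofFinite κ
  let e : Fin (Fintype.card κ) ≃ κ := (Fintype.equivFin κ).symm
  have hmem : (fun i : A => β i) ∈ Submodule.span (ZMod p)
      (Set.range ((fun (j : Fin t) (i : A) => (n i j : ZMod p)) ∘ a)) := by
    rw [hspan]
    have h1 : (fun i : A => β i) = ∑ j, γ j • fun i : A => (n i j : ZMod p) := by
      ext i
      simp only [Finset.sum_apply, Pi.smul_apply, smul_eq_mul]
      rw [hs i i.2]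
      exact sum_congr rfl fun j _ => mul_comm _ _
    rw [h1]
    exact Submodule.sum_mem _ fun j _ => Submodule.smul_mem _ _ (Submodule.subset_span ⟨j, rfl⟩)
  obtain ⟨c, hc⟩ := (Submodule.mem_span_range_iff_exists_fun (ZMod p)).1 hmem
  have hcc : ∀ i ∈ A, β i = ∑ l : Fin (Fintype.card κ), (n i (a (e l)) : ZMod p) * c (e l) := by
    intro i hi
    have h2 := congrFun hc ⟨i, hi⟩
    simp only [Finset.sum_apply, Pi.smul_apply, smul_eq_mul, Function.comp] at h2
    rw [← h2, ← e.sum_comp]
    exact sum_congr rfl fun l _ => mul_comm _ _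
  have hne : ∃ l : Fin (Fintype.card κ), c (e l) ≠ 0 := by
    by_contra hcon
    push Not at hcon
    obtain ⟨i, hi, hb⟩ := hβ
    apply hb
    rw [hcc i hi]
    exact sum_eq_zero fun l _ => by rw [hcon l, mul_zero]
  refine ⟨Fintype.card κ, fun l => a (e l), fun l => c (e l), ?_, ?_, hne, hcc, ?_⟩
  · obtain ⟨l, _⟩ := hne
    exact Nat.succ_le_of_lt (lt_of_le_of_lt (Nat.zero_le _) l.2)
  · simpa using Fintype.card_le_of_injective a ha
  · refine indep_of_mod (p := p) (fun l (i : A) => n i (a (e l))) ?_
    exact hlin.comp e e.injective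

end Pool.Agent.SPV.H14
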