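import Pool.Agent.SPV.Defs
import Pool.Agent.Helper24_Sparse.Cpx

/-!
Row PAR of squad SPV.
-/

set_option autoImplicit false

namespace Pool.Agent.SPV.H14

open Finset Pool.Agent.SPV

theorem par : ParStmt := by
  intro q _ hq b w hw
  obtain ⟨n, rfl⟩ : ∃ n, q = n + 1 := ⟨q - 1, by have := hq.pos; omega⟩
  have h := Pool.Agent.Helper24_Sparse.parseval (q := n + 1) (fun e : Fin (n + 1) => b e) w hw
  have h2 : ∑ j ∈ range (n + 1), ‖ev b (w ^ j)‖ ^ 2 = ((n + 1 : ℕ) : ℝ) * ∑ e : ZMod (n + 1), (b e : ℝ) ^ 2 := by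
    rw [← Fin.sum_univ_eq_sum_range (fun j => ‖ev b (w ^ j)‖ ^ 2)]
    exact h
  rw [← h2]
  refine sum_le_sum_of_subset_of_nonneg ?_ fun _ _ _ => by positivity
  intro j hj
  rw [mem_Ico] at hj
  exact mem_range.2 hj.2

end Pool.Agent.SPV.H14
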