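import Pool.Agent.Helper27_SPV.NRM
import Pool.Agent.Helper21_SPV.CHE
import Pool.Agent.Helper62_SPV.HAD
import Pool.Agent.Helper77_SPV.RTS
import Pool.Agent.Helper77_SPV.SPA
import Pool.Agent.Helper70_SPV.DEP
import Pool.Agent.Helper70_SPV.POE
import Pool.Agent.Helper28_SPV.ENE
import Pool.Agent.Helper28_SPV.ASY
import Pool.Agent.Helper14_SPV.PAR
import Pool.Agent.Helper14_SPV.IND

/-!
Squad SPV (MP_a19fbd_nt), block E: composition.
-/

namespace Pool.Agent.SPV.H14

theorem asyRow : AsyStmt :=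
  H28.asy (H28.ene H27.nrm H62.had par H77.rts (H70.dep (H77.spa H21.che)) H70.poe) ind

end Pool.Agent.SPV.H14
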