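import Pool.Agent.Helper14_SPV.POL
import Pool.Agent.Helper27_SPV.NRM
import Pool.Agent.Helper21_SPV.CHE
import Pool.Agent.Helper77_SPV.RTS
import Pool.Agent.Helper86_SPV.VAN
import Pool.Agent.Helper68_SPV.SEC
import Pool.Agent.Helper49_SPV.MIN
import Pool.Agent.Helper42_SPV.LGA
import Pool.Agent.Helper68_SPV.LGB
import Pool.Agent.Helper91_SPV.LGC

/-!
# Squad SPV: block L assembled (large p)
-/

set_option autoImplicit false

namespace Pool.Agent.SPV.H14

theorem minRow : MinStmt :=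
  H49.min_ H27.nrm H21.che pol H77.rts (H86.van pol) H68.sec

theorem allL : LgaStmt ∧ LgbStmt ∧ LgcStmt :=
  ⟨H42.lga minRow, H68.lgb minRow, H91.lgc minRow⟩

end Pool.Agent.SPV.H14
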