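import Pool.Agent.Helper20_US.Final

/-!
# The universal bound (Helper20_US), for polynomials which may have zero coefficients
-/

set_option autoImplicit false

namespace Pool.Agent.SPV.H14

open Finset

/-- Restriction to the support does not change the set of roots. -/
theorem supp_eq {p q : ℕ} (A : Finset ℕ) (β : ℕ → ZMod p) :
    {z : ZMod p | z ^ q = 1 ∧ ∑ i ∈ A.filter (fun i => β i ≠ 0), β i * z ^ i = 0} =
      {z : ZMod p | z ^ q = 1 ∧ ∑ i ∈ A, β i * z ^ i = 0} := by
  ext z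
  have h : ∑ i ∈ A.filter (fun i => β i ≠ 0), β i * z ^ i = ∑ i ∈ A, β i * z ^ i := by
    refine Finset.sum_subset (Finset.filter_subset _ _) fun i hi hni => ?_
    have : β i = 0 := by
      by_contra hne
      exact hni (Finset.mem_filter.mpr ⟨hi, hne⟩)
    rw [this, zero_mul]
  rw [Set.mem_ofPred_eq, Set.mem_ofPred_eq, h]

theorem universal (p q : ℕ) (hp : p.Prime) (hq : q.Prime) (hqp : q ∣ p - 1)
    (A : Finset ℕ) (hA : A ⊆ range q) (β : ℕ → ZMod p) (hne : ∃ i ∈ A, β i ≠ 0)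
    (η : ℝ) (he : 0 < η) (he3 : 3 * η < 1)
    (hr : (1 - η) * q ≤ ({z : ZMod p | z ^ q = 1 ∧ ∑ i ∈ A, β i * z ^ i = 0}.ncard : ℝ)) :
    Real.log q ≤ A.card * η * (6 + Real.log (1 / η)) := by
  classical
  obtain ⟨i, hi, hβ⟩ := hne
  have h1 := Pool.Agent.Helper20_US.universal hp hq hqp (A.filter (fun i => β i ≠ 0))
    ((Finset.filter_subset _ _).trans hA) ⟨i, Finset.mem_filter.mpr ⟨hi, hβ⟩⟩ β
    (fun j hj => (Finset.mem_filter.mp hj).2) η he he3 (by rw [supp_eq]; exact hr)
  refine h1.trans ?_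
  have h2 : ((A.filter (fun i => β i ≠ 0)).card : ℝ) ≤ A.card := by
    exact_mod_cast Finset.card_le_card (Finset.filter_subset _ _)
  have h3 : 0 ≤ Real.log (1 / η) := Real.log_nonneg (by rw [le_div_iff₀ he]; linarith)
  have h4 : 0 ≤ η * (6 + Real.log (1 / η)) := by positivity
  nlinarith [mul_le_mul_of_nonneg_right h2 h4]

theorem closed (p q : ℕ) (hp : p.Prime) (hq : q.Prime) (hqp : q ∣ p - 1)
    (A : Finset ℕ) (hA : A ⊆ range q) (β : ℕ → ZMod p) (hne : ∃ i ∈ A, β i ≠ 0) :
    ({z : ZMod p | z ^ q = 1 ∧ ∑ i ∈ A, β i * z ^ i = 0}.ncard : ℝ) ≤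
      (1 - 1 / (16 * (1 + A.card / Real.log q) * Real.log (2 + A.card / Real.log q))) * q := by
  classical
  obtain ⟨i, hi, hβ⟩ := hne
  have h1 := Pool.Agent.Helper20_US.closed_form hp hq hqp (A.filter (fun i => β i ≠ 0))
    ((Finset.filter_subset _ _).trans hA) ⟨i, Finset.mem_filter.mpr ⟨hi, hβ⟩⟩ β
    (fun j hj => (Finset.mem_filter.mp hj).2)
  rw [supp_eq] at h1
  refine h1.trans ?_
  have hq2 : (2 : ℝ) ≤ q := by exact_mod_cast hq.two_le
  have hlq : 0 < Real.log q := Real.log_pos (by linarith)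
  have h2 : ((A.filter (fun i => β i ≠ 0)).card : ℝ) / Real.log q ≤ A.card / Real.log q := by
    have : ((A.filter (fun i => β i ≠ 0)).card : ℝ) ≤ A.card := by
      exact_mod_cast Finset.card_le_card (Finset.filter_subset _ _)
    exact div_le_div_of_nonneg_right this hlq.le
  have h0 : 0 ≤ ((A.filter (fun i => β i ≠ 0)).card : ℝ) / Real.log q := by positivity
  set x : ℝ := ((A.filter (fun i => β i ≠ 0)).card : ℝ) / Real.log q with hx
  set y : ℝ := (A.card : ℝ) / Real.log q with hy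
  refine mul_le_mul_of_nonneg_right ?_ (by linarith)
  have h3 : 0 < Real.log (2 + x) := Real.log_pos (by linarith)
  have h4 : Real.log (2 + x) ≤ Real.log (2 + y) := Real.log_le_log (by linarith) (by linarith)
  have h5 : 1 / (16 * (1 + y) * Real.log (2 + y)) ≤ 1 / (16 * (1 + x) * Real.log (2 + x)) := by
    refine one_div_le_one_div_of_le (by positivity) ?_
    exact mul_le_mul (by linarith) h4 h3.le (by linarith)
  linarith

end Pool.Agent.SPV.H14
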