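import Pool.Agent.SPV.Defs

/-!
Row POL of squad SPV.
-/

set_option autoImplicit false

namespace Pool.Agent.SPV.H14

open Finset Pool.Agent.SPV

theorem pow_val_add' {q : ℕ} [NeZero q] {K : Type} [CommRing K] {x : K} (hx : x ^ q = 1) (e f : ZMod q) :
    x ^ (e + f).val = x ^ e.val * x ^ f.val := by
  rw [ZMod.val_add, ← pow_add, ← pow_eq_pow_mod _ hx]

theorem prod_pow_val {q : ℕ} [NeZero q] {K : Type} [CommRing K] {x : K} (hx : x ^ q = 1) {ι : Type}
    (s : Finset ι) (f : ι → ZMod q) : ∏ i ∈ s, x ^ (f i).val = x ^ (∑ i ∈ s, f i).val := by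
  classical
  induction s using Finset.induction_on with
  | empty => simp
  | insert a s ha ih => rw [prod_insert ha, sum_insert ha, pow_val_add' hx, ih]

theorem ev_dt {q k : ℕ} [NeZero q] (t a : Fin k → ZMod q) {K : Type} [CommRing K] {x : K}
    (hx : x ^ q = 1) :
    ev (dt t a) x = ∑ σ : Equiv.Perm (Fin k), ((Equiv.Perm.sign σ : ℤ) : K) * ∏ i, x ^ (t i * a (σ i)).val := by
  unfold ev dt
  simp_rw [prod_pow_val hx, Int.cast_sum, sum_mul]
  rw [sum_comm]
  refine sum_congr rfl fun σ _ => ?_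
  rw [sum_eq_single (∑ i, t i * a (σ i))]
  · simp
  · intro e _ he
    rw [if_neg (fun h => he h.symm)]
    simp
  · intro h
    exact absurd (mem_univ _) h

theorem pol : PolStmt := by
  intro q k _ t a
  refine ⟨fun K _ x hx => ?_, fun x hx => ?_⟩
  · rw [ev_dt t a hx, ← Matrix.det_transpose, Matrix.det_apply']
    rfl
  · rw [ev_dt t a hx]
    refine (norm_sum_le _ _).trans ?_
    have h1 : ‖x‖ = 1 := by
      have h := congrArg norm hx
      rw [norm_pow, norm_one] at h
      exact (pow_eq_one_iff_of_nonneg (norm_nonneg x) (NeZero.ne q)).1 h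
    have h2 : ∀ σ : Equiv.Perm (Fin k), ‖(((Equiv.Perm.sign σ : ℤ) : ℂ)) * ∏ i, x ^ (t i * a (σ i)).val‖ ≤ 1 := by
      intro σ
      rw [norm_mul, norm_prod]
      simp only [norm_pow, h1, one_pow, prod_const_one, mul_one]
      rcases Int.units_eq_one_or (Equiv.Perm.sign σ) with h | h <;> simp [h]
    calc ∑ σ : Equiv.Perm (Fin k), ‖(((Equiv.Perm.sign σ : ℤ) : ℂ)) * ∏ i, x ^ (t i * a (σ i)).val‖
        ≤ ∑ σ : Equiv.Perm (Fin k), (1 : ℝ) := sum_le_sum fun σ _ => h2 σ
      _ = k.factorial := by simp [Fintype.card_perm]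

end Pool.Agent.SPV.H14
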